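import Mathlib

set_option autoImplicit false

namespace Pool.Agent.Results.MP_2fc053_co.Full

/-- `G` is a veto interval graph: `l a < v a < r a` is the veto interval of `a`. -/
def IsVI {V : Type} (G : SimpleGraph V) : Prop :=
  ∃ l v r : V → ℝ, (∀ a, l a < v a ∧ v a < r a) ∧
    Function.Injective (fun a => (l a, v a, r a)) ∧
    ∀ a b, a ≠ b → (G.Adj a b ↔
      (v a < l b ∧ l b < r a ∧ r a < v b) ∨ (v b < l a ∧ l a < r b ∧ r b < v a))

abbrev W (N : ℕ) := {p : Fin N × Fin N // p.1 < p.2}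

def shift (N : ℕ) : SimpleGraph (W N) := SimpleGraph.fromRel fun a b => a.1.2 = b.1.1

lemma vi (N : ℕ) : IsVI (shift N) := by
  refine ⟨fun a => ((3 * a.1.1 : ℕ) : ℝ), fun a => ((3 * a.1.1 + 2 : ℕ) : ℝ),
    fun a => ((3 * a.1.2 + 1 : ℕ) : ℝ), fun a => ?_, fun a b h => ?_, fun a b h => ?_⟩
  · have : a.1.1.1 < a.1.2.1 := a.2
    simp only [Nat.cast_lt]; omega
  · simp only [Prod.mk.injEq, Nat.cast_inj] at h
    exact Subtype.ext (Prod.ext (Fin.ext (by omega)) (Fin.ext (by omega)))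
  · have h1 : a.1.1.1 < a.1.2.1 := a.2
    have h2 : b.1.1.1 < b.1.2.1 := b.2
    simp only [shift, SimpleGraph.fromRel_adj, ne_eq, h, not_false_eq_true, true_and, Nat.cast_lt,
      Fin.ext_iff]
    omega

lemma up (k : ℕ) : (shift (2 ^ k)).Colorable k := by
  have : ∀ a : W (2 ^ k), ∃ t : Fin k, ¬ a.1.1.1.testBit t ∧ a.1.2.1.testBit t := fun a => by
    by_contra! h
    refine (show a.1.1.1 < a.1.2.1 from a.2).not_ge (Nat.le_of_testBit fun i hi => ?_)
    have : i < k := (Nat.pow_lt_pow_iff_right one_lt_two).1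
      ((Nat.ge_two_pow_of_testBit hi).trans_lt a.1.2.2)
    by_contra c
    exact h ⟨i, this⟩ c hi
  choose c hc using this
  refine ⟨SimpleGraph.Coloring.mk c ?_⟩
  rintro a b ⟨-, h | h⟩ e
  · exact (hc b).1 (h ▸ e ▸ (hc a).2)
  · exact (hc a).1 (h ▸ e ▸ (hc b).2)

lemma low {N m : ℕ} (h : (shift N).Colorable m) : N ≤ 2 ^ m := by
  classical
  obtain ⟨c⟩ := h
  let S : Fin N → Finset (Fin m) := fun i => Finset.univ.filter fun t => ∃ a, a.1.1 = i ∧ c a = t
  have key : ∀ i j, i < j → S i ≠ S j := fun i j hij e => by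
    have : c ⟨(i, j), hij⟩ ∈ S j := e ▸ by simp only [S, Finset.mem_filter]; exact ⟨by simp, _, rfl, rfl⟩
    simp only [S, Finset.mem_filter] at this
    obtain ⟨-, a, h1, h2⟩ := this
    refine c.valid (v := ⟨(i, j), hij⟩) (w := a) ⟨fun e => ?_, Or.inl h1.symm⟩ h2.symm
    exact hij.ne (e ▸ h1 :)
  simpa using Fintype.card_le_of_injective S fun i j e => by
    by_contra c
    rcases lt_or_gt_of_ne c with h | h
    exacts [key _ _ h e, key _ _ h e.symm]

/-- Every `k` is the chromatic number of a finite veto interval graph. -/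
theorem result (k : ℕ) : ∃ (V : Type) (_ : Fintype V) (G : SimpleGraph V),
    IsVI G ∧ G.chromaticNumber = k := by
  refine ⟨W (2 ^ k), inferInstance, shift _, vi _, le_antisymm (up k).chromaticNumber_le ?_⟩
  rw [SimpleGraph.le_chromaticNumber_iff_colorable]
  exact fun m hm => by exact_mod_cast (Nat.pow_le_pow_iff_right one_lt_two).1 (low hm)

end Pool.Agent.Results.MP_2fc053_co.Full
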